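import Pool.Agent.H26.NetG

namespace Pool.Agent.Results.MP_9f00ad_co.NoFiniteGen

open Pool.Agent.H26.Comp

theorem result (F : Set (Matroid ℕ)) (hF : F.Finite) (hE : ∀ M ∈ F, M.E.Finite) :
    ∃ M : Matroid ℕ, M ∈ SBO ∧ M ∈ BO ∧ M ∉ gen F :=
  no_gen hF hE

end Pool.Agent.Results.MP_9f00ad_co.NoFiniteGen
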